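import Pool.Agent.helper68.FY.Spec

set_option autoImplicit false

namespace Pool.Agent.helper68.FY

open Finset

theorem LAT_min {α : Type} (P : α → Prop) (f : α → ℕ) (h : ∃ a, P a) :
    ∃ a, P a ∧ ∀ b, P b → f a ≤ f b := by
  obtain ⟨a, ha, hmin⟩ := (measure f).wf.has_min {a | P a} h
  exact ⟨a, ha, fun b hb => not_lt.mp (hmin b hb)⟩

theorem LAT_le_nm (g : V4) (i : Fin 4) : |g i| ≤ (nm g : ℤ) := by
  have h : (g i).natAbs ≤ nm g :=
    Finset.le_sup (f := fun i => (g i).natAbs) (Finset.mem_univ i)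
  rw [Int.abs_eq_natAbs]
  exact_mod_cast h

theorem LAT_nm_attained (g : V4) : ∃ i, |g i| = (nm g : ℤ) := by
  obtain ⟨i, _, hi⟩ := Finset.exists_mem_eq_sup Finset.univ Finset.univ_nonempty
    (fun i => (g i).natAbs)
  refine ⟨i, ?_⟩
  rw [Int.abs_eq_natAbs]
  unfold nm
  exact_mod_cast hi.symm

/-- the maximum of the 2x2 minors -/
def LAT_plm (a b : V4) : ℕ :=
  (Finset.univ : Finset (Fin 4 × Fin 4)).sup fun q => (pl a b q.1 q.2).natAbs

theorem LAT_le_plm (a b : V4) (k l : Fin 4) : |pl a b k l| ≤ (LAT_plm a b : ℤ) := by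
  have h : (pl a b k l).natAbs ≤ LAT_plm a b :=
    Finset.le_sup (f := fun q : Fin 4 × Fin 4 => (pl a b q.1 q.2).natAbs)
      (Finset.mem_univ (k, l))
  rw [Int.abs_eq_natAbs]
  exact_mod_cast h

theorem LAT_plm_attained (a b : V4) : ∃ k l, |pl a b k l| = (LAT_plm a b : ℤ) := by
  obtain ⟨q, _, hq⟩ := Finset.exists_mem_eq_sup (Finset.univ : Finset (Fin 4 × Fin 4))
    Finset.univ_nonempty (fun q => (pl a b q.1 q.2).natAbs)
  refine ⟨q.1, q.2, ?_⟩
  rw [Int.abs_eq_natAbs]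
  unfold LAT_plm
  exact_mod_cast hq.symm

theorem LAT_plm_ne (a b : V4) (k l : Fin 4) (h : pl a b k l ≠ 0) : LAT_plm a b ≠ 0 := by
  intro h0
  have h1 := LAT_le_plm a b k l
  rw [h0] at h1
  exact h (abs_eq_zero.mp (le_antisymm h1 (abs_nonneg _)))

theorem LAT_id (x y z : V4) (k l i : Fin 4) :
    m3 x y z k l i = pl x y k l * z i - pl x z k l * y i + pl y z k l * x i := by
  unfold m3 pl; ring

theorem LAT_pl_plane (e₁ e₂ z : V4) (h : ∀ i j k, m3 e₁ e₂ z i j k = 0) (k l a b : Fin 4) :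
    pl e₁ e₂ k l * pl e₁ z a b = pl e₁ z k l * pl e₁ e₂ a b := by
  have h1 := h k l a
  have h2 := h k l b
  rw [LAT_id] at h1 h2
  unfold pl at h1 h2 ⊢
  linear_combination e₁ a * h2 - e₁ b * h1

theorem LAT_plane_of (e₁ e₂ z : V4) (i j : Fin 4) (hP : pl e₁ e₂ i j ≠ 0)
    (h : ∀ a, m3 e₁ e₂ z i j a = 0) : ∀ a b c, m3 e₁ e₂ z a b c = 0 := by
  intro a b c
  have ha := h a
  have hb := h b
  have hc := h c
  have key : pl e₁ e₂ i j * m3 e₁ e₂ z a b c = 0 := by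
    rw [LAT_id] at ha hb hc
    unfold m3
    unfold pl at ha hb hc ⊢
    linear_combination (e₁ a * e₂ b - e₁ b * e₂ a) * hc - (e₁ a * e₂ c - e₁ c * e₂ a) * hb
      + (e₁ b * e₂ c - e₁ c * e₂ b) * ha
  exact (mul_eq_zero.mp key).resolve_left hP

theorem LAT_det4 (M : Matrix (Fin 4) (Fin 4) ℤ) :
    M.det = d4 (M 0) (M 1) (M 2) (M 3) := by
  rw [Matrix.det_succ_row_zero]
  simp [Fin.sum_univ_succ, Matrix.det_fin_three, Fin.succAbove, d4, pl]
  ring

theorem LAT_det (e₁ e₂ d x : V4) (i j a b : Fin 4) (h : d4 e₁ e₂ d x = 0) :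
    m3 e₁ e₂ d i j a * m3 e₁ e₂ x i j b - m3 e₁ e₂ d i j b * m3 e₁ e₂ x i j a = 0 := by
  set M : Matrix (Fin 4) (Fin 4) ℤ := Matrix.of ![e₁, e₂, d, x] with hMdef
  have hM : M.det = 0 := by rw [LAT_det4]; exact h
  set f : Fin 4 → Fin 4 := ![i, j, a, b] with hfdef
  have hf : (M.submatrix id f).det = 0 := by
    by_cases hinj : Function.Injective f
    · have hb := Finite.injective_iff_bijective.mp hinj
      have h2 := Matrix.det_permute' (Equiv.ofBijective f hb) M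
      rw [hM, mul_zero] at h2
      exact h2
    · unfold Function.Injective at hinj
      push Not at hinj
      obtain ⟨u, v, huv, hne⟩ := hinj
      exact Matrix.det_zero_of_column_eq hne (fun r => by simp [Matrix.submatrix_apply, huv])
  rw [LAT_det4] at hf
  have e : m3 e₁ e₂ d i j a * m3 e₁ e₂ x i j b - m3 e₁ e₂ d i j b * m3 e₁ e₂ x i j a
      = pl e₁ e₂ i j * d4 ((M.submatrix id f) 0) ((M.submatrix id f) 1)
        ((M.submatrix id f) 2) ((M.submatrix id f) 3) := by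
    have v0 : ∀ c, (M.submatrix id f) 0 c = e₁ (f c) := fun c => rfl
    have v1 : ∀ c, (M.submatrix id f) 1 c = e₂ (f c) := fun c => rfl
    have v2 : ∀ c, (M.submatrix id f) 2 c = d (f c) := fun c => rfl
    have v3 : ∀ c, (M.submatrix id f) 3 c = x (f c) := fun c => rfl
    have f0 : f 0 = i := rfl
    have f1 : f 1 = j := rfl
    have f2 : f 2 = a := rfl
    have f3 : f 3 = b := rfl
    unfold d4 m3 pl
    simp only [v0, v1, v2, v3, f0, f1, f2, f3]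
    ring
  rw [e, hf, mul_zero]

theorem LAT_pl_bound (x y : V4) (A B : ℕ) (hx : ∀ i, |x i| ≤ (A : ℤ)) (hy : ∀ i, |y i| ≤ (B : ℤ))
    (k l : Fin 4) : |pl x y k l| ≤ 2 * (A : ℤ) * B := by
  unfold pl
  have h1 : |x k * y l| ≤ (A : ℤ) * B := by
    rw [abs_mul]
    exact mul_le_mul (hx k) (hy l) (abs_nonneg _) (by positivity)
  have h2 : |x l * y k| ≤ (A : ℤ) * B := by
    rw [abs_mul]
    exact mul_le_mul (hx l) (hy k) (abs_nonneg _) (by positivity)
  have h3 := abs_sub (x k * y l) (x l * y k)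
  linarith

theorem LAT_m3_bound (x y z : V4) (U G : ℕ) (hp : ∀ k l, |pl x y k l| ≤ (U : ℤ))
    (hz : ∀ i, |z i| ≤ (G : ℤ)) (i j k : Fin 4) : |m3 x y z i j k| ≤ 3 * (U : ℤ) * G := by
  have e : m3 x y z i j k = pl x y i j * z k - pl x y i k * z j + pl x y j k * z i := by
    unfold m3 pl; ring
  rw [e]
  have b : ∀ k l m, |pl x y k l * z m| ≤ (U : ℤ) * G := by
    intro k l m
    rw [abs_mul]
    exact mul_le_mul (hp k l) (hz m) (abs_nonneg _) (by positivity)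
  have h1 := abs_add_le (pl x y i j * z k - pl x y i k * z j) (pl x y j k * z i)
  have h2 := abs_sub (pl x y i j * z k) (pl x y i k * z j)
  have b1 := b i j k
  have b2 := b i k j
  have b3 := b j k i
  linarith

theorem LAT_d4_bound (x y z w : V4) (U V : ℕ) (hp : ∀ k l, |pl x y k l| ≤ (U : ℤ))
    (hq : ∀ k l, |pl z w k l| ≤ (V : ℤ)) : |d4 x y z w| ≤ 6 * (U : ℤ) * V := by
  unfold d4
  have b : ∀ k l m n, |pl x y k l * pl z w m n| ≤ (U : ℤ) * V := by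
    intro k l m n
    rw [abs_mul]
    exact mul_le_mul (hp k l) (hq m n) (abs_nonneg _) (by positivity)
  have b1 := abs_le.mp (b 0 1 2 3)
  have b2 := abs_le.mp (b 0 2 1 3)
  have b3 := abs_le.mp (b 0 3 1 2)
  have b4 := abs_le.mp (b 1 2 0 3)
  have b5 := abs_le.mp (b 1 3 0 2)
  have b6 := abs_le.mp (b 2 3 0 1)
  rw [abs_le]
  constructor <;> linarith [b1.1, b1.2, b2.1, b2.2, b3.1, b3.2, b4.1, b4.2, b5.1, b5.2, b6.1, b6.2]

theorem LAT_quot (a : ℤ) (A m : ℕ) (hm : 1 ≤ m) (ha : |a| ≤ (A : ℤ)) :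
    a / (m : ℤ) ∈ Finset.Icc (-((A / m : ℕ) : ℤ) - 1) ((A / m : ℕ) : ℤ) := by
  have hm0 : (0 : ℤ) < m := by exact_mod_cast hm
  rw [Finset.mem_Icc]
  have h1 := (abs_le.mp ha).1
  have h2 := (abs_le.mp ha).2
  constructor
  · rw [Int.le_ediv_iff_mul_le hm0]
    have h3 : A < m * (A / m + 1) := Nat.lt_mul_div_succ A (by omega)
    have h4 : (A : ℤ) < (m : ℤ) * (((A / m : ℕ) : ℤ) + 1) := by exact_mod_cast h3
    linarith [h1, h4]
  · have h5 : a / (m : ℤ) ≤ (A : ℤ) / (m : ℤ) := Int.ediv_le_ediv hm0 h2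
    have h6 : ((A / m : ℕ) : ℤ) = (A : ℤ) / (m : ℤ) := by norm_cast
    rw [h6]; exact h5

theorem LAT_quot_diff (a b : ℤ) (m : ℕ) (hm : 1 ≤ m) (h : a / (m : ℤ) = b / (m : ℤ)) :
    |a - b| < (m : ℤ) := by
  have hm0 : (0 : ℤ) < m := by exact_mod_cast hm
  have e1 := Int.mul_ediv_add_emod a m
  have e2 := Int.mul_ediv_add_emod b m
  have l1 := Int.emod_nonneg a hm0.ne'
  have l2 := Int.emod_nonneg b hm0.ne'
  have u1 := Int.emod_lt_of_pos a hm0
  have u2 := Int.emod_lt_of_pos b hm0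
  rw [h] at e1
  rw [abs_lt]
  constructor <;> linarith

theorem LAT_card (q : ℕ) : (Finset.Icc (-(q : ℤ) - 1) (q : ℤ)).card = 2 * q + 2 := by
  rw [Int.card_Icc]
  omega

theorem LAT_card' (q : ℕ) : ((Finset.Icc (-(q : ℤ)) (q : ℤ)).erase 0).card = 2 * q := by
  rw [Finset.card_erase_of_mem (by rw [Finset.mem_Icc]; omega), Int.card_Icc]
  omega

theorem LAT_exact (a : ℤ) (A p : ℕ) (hp : 1 ≤ p) (ha : |a| ≤ (A : ℤ)) (hd : (p : ℤ) ∣ a)
    (h0 : a ≠ 0) :
    a / (p : ℤ) ∈ (Finset.Icc (-((A / p : ℕ) : ℤ)) ((A / p : ℕ) : ℤ)).erase 0 := by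
  have hp0 : (0 : ℤ) < p := by exact_mod_cast hp
  obtain ⟨c, rfl⟩ := hd
  rw [Int.mul_ediv_cancel_left c hp0.ne']
  have hc : c ≠ 0 := by
    rintro rfl
    exact h0 (mul_zero _)
  rw [Finset.mem_erase, Finset.mem_Icc]
  refine ⟨hc, ?_⟩
  have h1 : p * c.natAbs ≤ A := by
    have h2 : |(p : ℤ) * c| = ((p * c.natAbs : ℕ) : ℤ) := by
      rw [abs_mul, Int.abs_eq_natAbs c]
      push_cast
      rw [abs_of_pos hp0]
    rw [h2] at ha
    exact_mod_cast ha
  have h3 : c.natAbs ≤ A / p := (Nat.le_div_iff_mul_le (by omega)).mpr (by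
    rw [mul_comm]; exact h1)
  omega

/-- the injectivity argument in the plane -/
theorem LAT_inj (Λ : AddSubgroup V4) (e₁ e₂ : V4) (i j l : Fin 4)
    (hmin1 : ∀ z ∈ Λ, z ≠ 0 → nm e₁ ≤ nm z) (hl : |e₁ l| = (nm e₁ : ℤ)) (hlam : 1 ≤ nm e₁)
    (hmin2 : ∀ z ∈ Λ, LAT_plm e₁ z ≠ 0 → LAT_plm e₁ e₂ ≤ LAT_plm e₁ z)
    (hij : |pl e₁ e₂ i j| = (LAT_plm e₁ e₂ : ℤ)) (hmu : 1 ≤ LAT_plm e₁ e₂)
    (δ : V4) (hδ : δ ∈ Λ) (hpl : ∀ a b c, m3 e₁ e₂ δ a b c = 0)
    (h1 : |pl e₁ δ i j| < (LAT_plm e₁ e₂ : ℤ)) (h2 : |δ l| < (nm e₁ : ℤ)) : δ = 0 := by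
  have hmu0 : (0 : ℤ) < (LAT_plm e₁ e₂ : ℤ) := by exact_mod_cast hmu
  have hlam0 : (0 : ℤ) < (nm e₁ : ℤ) := by exact_mod_cast hlam
  have hle : ∀ k m, |pl e₁ δ k m| ≤ |pl e₁ δ i j| := by
    intro k m
    have h := LAT_pl_plane e₁ e₂ δ hpl i j k m
    have h' : (LAT_plm e₁ e₂ : ℤ) * |pl e₁ δ k m| = |pl e₁ δ i j| * |pl e₁ e₂ k m| := by
      rw [← hij, ← abs_mul, ← abs_mul, h]
    have h3 := LAT_le_plm e₁ e₂ k m
    have h4 : (LAT_plm e₁ e₂ : ℤ) * |pl e₁ δ k m| ≤ (LAT_plm e₁ e₂ : ℤ) * |pl e₁ δ i j| := by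
      rw [h', mul_comm (LAT_plm e₁ e₂ : ℤ)]
      exact mul_le_mul_of_nonneg_left h3 (abs_nonneg _)
    exact le_of_mul_le_mul_left h4 hmu0
  have hz : LAT_plm e₁ δ = 0 := by
    by_contra hne
    have h3 := hmin2 δ hδ hne
    obtain ⟨k, m, hkm⟩ := LAT_plm_attained e₁ δ
    have h4 := hle k m
    rw [hkm] at h4
    have h5 : (LAT_plm e₁ e₂ : ℤ) ≤ (LAT_plm e₁ δ : ℤ) := by exact_mod_cast h3
    linarith
  have hz' : ∀ k m, pl e₁ δ k m = 0 := by
    intro k m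
    have h3 := LAT_le_plm e₁ δ k m
    rw [hz] at h3
    exact abs_eq_zero.mp (le_antisymm h3 (abs_nonneg _))
  by_contra hne
  have h3 := hmin1 δ hδ hne
  obtain ⟨k, hk⟩ := LAT_nm_attained δ
  have h4 : e₁ l * δ k = e₁ k * δ l := by
    have := hz' l k
    unfold pl at this
    linarith
  have h5 : (nm e₁ : ℤ) * |δ k| ≤ (nm e₁ : ℤ) * |δ l| := by
    have h6 : |e₁ l| * |δ k| = |e₁ k| * |δ l| := by rw [← abs_mul, ← abs_mul, h4]
    rw [hl] at h6
    rw [h6]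
    exact mul_le_mul_of_nonneg_right (LAT_le_nm e₁ k) (abs_nonneg _)
  have h7 := le_of_mul_le_mul_left h5 hlam0
  rw [hk] at h7
  have h8 : (nm e₁ : ℤ) ≤ (nm δ : ℤ) := by exact_mod_cast h3
  linarith

theorem LAT_pl_sub (e z w : V4) (i j : Fin 4) :
    pl e (z - w) i j = pl e z i j - pl e w i j := by
  unfold pl
  simp only [Pi.sub_apply]
  ring

theorem LAT_m3_sub (x y z w : V4) (i j k : Fin 4) :
    m3 x y (z - w) i j k = m3 x y z i j k - m3 x y w i j k := by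
  unfold m3
  simp only [Pi.sub_apply]
  ring

theorem LAT_arith1 (c q₁ q₂ μ lam G : ℕ) (hc : c ≤ (2 * q₁ + 2) * (2 * q₂ + 2)) (h1 : 1 ≤ q₁)
    (h2 : 1 ≤ q₂) (hq1 : q₁ * μ ≤ 2 * lam * G) (hq2 : q₂ * lam ≤ G) (hlam : 1 ≤ lam) :
    c * μ ≤ 32 * G ^ 2 := by
  have h3 : c ≤ (4 * q₁) * (4 * q₂) := hc.trans (Nat.mul_le_mul (by omega) (by omega))
  have h4 : c * μ * lam ≤ 32 * G ^ 2 * lam := by
    calc c * μ * lam ≤ (4 * q₁) * (4 * q₂) * μ * lam := by gcongr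
      _ = 16 * (q₁ * μ) * (q₂ * lam) := by ring
      _ ≤ 16 * (2 * lam * G) * G := by gcongr
      _ = 32 * G ^ 2 * lam := by ring
  exact Nat.le_of_mul_le_mul_right h4 hlam

theorem LAT_arith2 (c q₀ q₁ q₂ μ lam G p : ℕ) (hc : c ≤ (2 * q₀) * ((2 * q₁ + 2) * (2 * q₂ + 2)))
    (h1 : 1 ≤ q₁) (h2 : 1 ≤ q₂) (hq0 : q₀ * p ≤ 3 * μ * G) (hq1 : q₁ * μ ≤ 2 * lam * G)
    (hq2 : q₂ * lam ≤ G) (hlam : 1 ≤ lam) (hmu : 1 ≤ μ) :
    c * p ≤ 192 * G ^ 3 := by
  have h3 : c ≤ (2 * q₀) * ((4 * q₁) * (4 * q₂)) :=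
    hc.trans (Nat.mul_le_mul le_rfl (Nat.mul_le_mul (by omega) (by omega)))
  have h4 : c * p * (μ * lam) ≤ 192 * G ^ 3 * (μ * lam) := by
    calc c * p * (μ * lam) ≤ (2 * q₀) * ((4 * q₁) * (4 * q₂)) * p * (μ * lam) := by gcongr
      _ = 32 * (q₀ * p) * (q₁ * μ) * (q₂ * lam) := by ring
      _ ≤ 32 * (3 * μ * G) * (2 * lam * G) * G := by gcongr
      _ = 192 * G ^ 3 * (μ * lam) := by ring
  exact Nat.le_of_mul_le_mul_right h4 (Nat.mul_pos hmu hlam)

theorem LAT : LAT_stmt := by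
  intro Λ p G hG hp hm3 hd4 F hF
  by_cases hall : ∀ x ∈ F, ∀ y ∈ F, ∀ k l, pl x y k l = 0
  · exact Or.inl hall
  right
  push Not at hall
  obtain ⟨x, hx, y, hy, k, m, hkm⟩ := hall
  have hx0 : x ≠ 0 := by
    rintro rfl
    apply hkm
    simp [pl]
  -- the first vector
  obtain ⟨e₁, ⟨he₁, he₁0⟩, hmin1'⟩ := LAT_min (fun z : V4 => z ∈ Λ ∧ z ≠ 0) nm ⟨x, (hF x hx).1, hx0⟩
  have hmin1 : ∀ z ∈ Λ, z ≠ 0 → nm e₁ ≤ nm z := fun z hz hz0 => hmin1' z ⟨hz, hz0⟩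
  obtain ⟨l, hl⟩ := LAT_nm_attained e₁
  have hlam : 1 ≤ nm e₁ := by
    by_contra hlt
    have h0 : nm e₁ = 0 := by omega
    apply he₁0
    funext i
    have := LAT_le_nm e₁ i
    rw [h0] at this
    exact abs_eq_zero.mp (le_antisymm this (abs_nonneg _))
  have hlamG : nm e₁ ≤ G := (hmin1 x (hF x hx).1 hx0).trans (hF x hx).2
  -- the second vector
  have hex : ∃ w ∈ F, LAT_plm e₁ w ≠ 0 := by
    by_contra hno
    push Not at hno
    have hzx : ∀ a b, pl e₁ x a b = 0 := by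
      intro a b
      by_contra hne
      exact LAT_plm_ne e₁ x a b hne (hno x hx)
    have hzy : ∀ a b, pl e₁ y a b = 0 := by
      intro a b
      by_contra hne
      exact LAT_plm_ne e₁ y a b hne (hno y hy)
    apply hkm
    have hel : e₁ l ≠ 0 := by
      intro h0
      rw [h0, abs_zero] at hl
      have : (0 : ℤ) < (nm e₁ : ℤ) := by exact_mod_cast hlam
      linarith
    have a1 := hzx l k
    have a2 := hzx l m
    have a3 := hzy l k
    have a4 := hzy l m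
    have key : e₁ l * pl x y k m = 0 := by
      have key2 : e₁ l * (e₁ l * pl x y k m) = 0 := by
        unfold pl at a1 a2 a3 a4 ⊢
        linear_combination (e₁ l * y m) * a1 + (e₁ k * x l) * a4 - (e₁ l * y k) * a2
          - (e₁ m * x l) * a3
      exact (mul_eq_zero.mp key2).resolve_left hel
    exact (mul_eq_zero.mp key).resolve_left hel
  obtain ⟨w, hw, hw0⟩ := hex
  obtain ⟨e₂, ⟨he₂, he₂0⟩, hmin2'⟩ := LAT_min (fun z : V4 => z ∈ Λ ∧ LAT_plm e₁ z ≠ 0)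
    (LAT_plm e₁) ⟨w, (hF w hw).1, hw0⟩
  have hmin2 : ∀ z ∈ Λ, LAT_plm e₁ z ≠ 0 → LAT_plm e₁ e₂ ≤ LAT_plm e₁ z :=
    fun z hz hz0 => hmin2' z ⟨hz, hz0⟩
  obtain ⟨i, j, hij⟩ := LAT_plm_attained e₁ e₂
  have hmu : 1 ≤ LAT_plm e₁ e₂ := Nat.one_le_iff_ne_zero.mpr he₂0
  have hFb : ∀ z ∈ F, ∀ a, |z a| ≤ (G : ℤ) := by
    intro z hz a
    have h1 := LAT_le_nm z a
    have h2 : (nm z : ℤ) ≤ (G : ℤ) := by exact_mod_cast (hF z hz).2
    exact h1.trans h2
  have he₁b : ∀ a, |e₁ a| ≤ (nm e₁ : ℤ) := LAT_le_nm e₁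
  have hplF : ∀ z ∈ F, |pl e₁ z i j| ≤ ((2 * nm e₁ * G : ℕ) : ℤ) := by
    intro z hz
    have := LAT_pl_bound e₁ z (nm e₁) G he₁b (hFb z hz) i j
    push_cast
    exact this
  have hmuG : LAT_plm e₁ e₂ ≤ 2 * nm e₁ * G := by
    refine (hmin2 w (hF w hw).1 hw0).trans ?_
    obtain ⟨a, b, hab⟩ := LAT_plm_attained e₁ w
    have := LAT_pl_bound e₁ w (nm e₁) G he₁b (hFb w hw) a b
    rw [hab] at this
    exact_mod_cast this
  have hpij : pl e₁ e₂ i j ≠ 0 := by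
    intro h0
    rw [h0, abs_zero] at hij
    have : (0 : ℤ) < (LAT_plm e₁ e₂ : ℤ) := by exact_mod_cast hmu
    linarith
  set μ := LAT_plm e₁ e₂ with hμdef
  set lam := nm e₁ with hlamdef
  have hq1 : 1 ≤ (2 * lam * G) / μ := (Nat.one_le_div_iff (by omega)).mpr hmuG
  have hq2 : 1 ≤ G / lam := (Nat.one_le_div_iff (by omega)).mpr hlamG
  have hp1 : 1 ≤ p := by
    have : 0 < G ^ 2 := by positivity
    omega
  refine ⟨e₁, he₁, e₂, he₂, μ, hmu, fun a b => LAT_le_plm e₁ e₂ a b, ⟨i, j, hij⟩, ?_, ?_⟩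
  · -- the elements outside the plane
    set F₁ := F.filter fun x => ¬ ∀ i j k, m3 e₁ e₂ x i j k = 0 with hF₁
    rcases F₁.eq_empty_or_nonempty with hemp | ⟨x₀, hx₀⟩
    · rw [hemp]; simp
    have hx₀F : x₀ ∈ F := (Finset.mem_filter.mp hx₀).1
    have hx₀n : ¬ ∀ i j k, m3 e₁ e₂ x₀ i j k = 0 := (Finset.mem_filter.mp hx₀).2
    have hi₀ : ∃ i₀, m3 e₁ e₂ x₀ i j i₀ ≠ 0 := by
      by_contra hno
      push Not at hno
      exact hx₀n (LAT_plane_of e₁ e₂ x₀ i j hpij hno)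
    obtain ⟨i₀, hi₀⟩ := hi₀
    -- the claim
    have claim : ∀ δ ∈ Λ, (∀ a, |δ a| ≤ ((2 * G : ℕ) : ℤ)) → m3 e₁ e₂ δ i j i₀ = 0 →
        ∀ a b c, m3 e₁ e₂ δ a b c = 0 := by
      intro δ hδ hδb hδ0
      have hb1 : ∀ a b, |pl δ x₀ a b| ≤ ((4 * G ^ 2 : ℕ) : ℤ) := by
        intro a b
        have := LAT_pl_bound δ x₀ (2 * G) G hδb (hFb x₀ hx₀F) a b
        push_cast at this ⊢
        linarith
      have hb2 := LAT_d4_bound e₁ e₂ δ x₀ μ (4 * G ^ 2) (fun a b => LAT_le_plm e₁ e₂ a b) hb1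
      have hdv := hd4 e₁ he₁ e₂ he₂ δ hδ x₀ (hF x₀ hx₀F).1
      have hzero : d4 e₁ e₂ δ x₀ = 0 := by
        apply Int.eq_zero_of_abs_lt_dvd hdv
        refine lt_of_le_of_lt hb2 ?_
        have h1 : μ ≤ 2 * G ^ 2 := hmuG.trans (by
          calc 2 * lam * G ≤ 2 * G * G := by gcongr
            _ = 2 * G ^ 2 := by ring)
        have h2 : 6 * μ * (4 * G ^ 2) < p ^ 2 := by
          calc 6 * μ * (4 * G ^ 2) ≤ 6 * (2 * G ^ 2) * (4 * G ^ 2) := by gcongr
            _ = 48 * (G ^ 2 * G ^ 2) := by ring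
            _ < (7 * G ^ 2) * (7 * G ^ 2) := by
              have : 0 < G ^ 2 * G ^ 2 := by positivity
              nlinarith
            _ ≤ p * p := Nat.mul_le_mul hp.le hp.le
            _ = p ^ 2 := by ring
        exact_mod_cast h2
      apply LAT_plane_of e₁ e₂ δ i j hpij
      intro a
      have h3 := LAT_det e₁ e₂ δ x₀ i j i₀ a hzero
      rw [hδ0, zero_mul, zero_sub, neg_eq_zero] at h3
      exact (mul_eq_zero.mp h3).resolve_right hi₀
    have hne : ∀ z ∈ F₁, m3 e₁ e₂ z i j i₀ ≠ 0 := by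
      intro z hz h0
      have hzF := (Finset.mem_filter.mp hz).1
      apply (Finset.mem_filter.mp hz).2
      apply claim z (hF z hzF).1 _ h0
      intro a
      have := hFb z hzF a
      push_cast
      have hG0 : (0 : ℤ) ≤ G := by positivity
      linarith
    have hcard : F₁.card ≤ (2 * ((3 * μ * G) / p)) * ((2 * ((2 * lam * G) / μ) + 2)
        * (2 * (G / lam) + 2)) := by
      rw [← LAT_card', ← LAT_card, ← LAT_card, ← Finset.card_product, ← Finset.card_product]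
      apply Finset.card_le_card_of_injOn
        (fun z => (m3 e₁ e₂ z i j i₀ / (p : ℤ), pl e₁ z i j / (μ : ℤ), z l / (lam : ℤ)))
      · intro z hz
        have hz' : z ∈ F₁ := hz
        have hzF := (Finset.mem_filter.mp hz').1
        simp only [Finset.coe_product, Set.mem_prod, Finset.mem_coe]
        refine ⟨?_, ?_, ?_⟩
        · apply LAT_exact _ _ _ hp1 _ (hm3 e₁ he₁ e₂ he₂ z (hF z hzF).1 i j i₀) (hne z hz')
          have := LAT_m3_bound e₁ e₂ z μ G (fun a b => LAT_le_plm e₁ e₂ a b) (hFb z hzF) i j i₀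
          push_cast
          exact this
        · exact LAT_quot _ _ _ hmu (hplF z hzF)
        · exact LAT_quot _ _ _ hlam (hFb z hzF l)
      · intro z hz z' hz' heq
        have hz1 : z ∈ F₁ := hz
        have hz1' : z' ∈ F₁ := hz'
        have hzF := (Finset.mem_filter.mp hz1).1
        have hzF' := (Finset.mem_filter.mp hz1').1
        simp only [Prod.mk.injEq] at heq
        obtain ⟨q1, q2, q3⟩ := heq
        have hδΛ : z - z' ∈ Λ := Λ.sub_mem (hF z hzF).1 (hF z' hzF').1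
        have hδ0 : m3 e₁ e₂ (z - z') i j i₀ = 0 := by
          rw [LAT_m3_sub]
          have d1 := Int.ediv_mul_cancel (hm3 e₁ he₁ e₂ he₂ z (hF z hzF).1 i j i₀)
          have d2 := Int.ediv_mul_cancel (hm3 e₁ he₁ e₂ he₂ z' (hF z' hzF').1 i j i₀)
          rw [← d1, ← d2, q1, sub_self]
        have hδb : ∀ a, |(z - z') a| ≤ ((2 * G : ℕ) : ℤ) := by
          intro a
          have h1 := hFb z hzF a
          have h2 := hFb z' hzF' a
          have h3 := abs_sub (z a) (z' a)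
          push_cast
          simp only [Pi.sub_apply]
          linarith
        have hpl := claim (z - z') hδΛ hδb hδ0
        have hδz : z - z' = 0 := by
          apply LAT_inj Λ e₁ e₂ i j l hmin1 hl hlam hmin2 hij hmu (z - z') hδΛ hpl
          · rw [LAT_pl_sub]
            exact LAT_quot_diff _ _ μ hmu q2
          · exact LAT_quot_diff (z l) (z' l) lam hlam q3
        exact sub_eq_zero.mp hδz
    exact LAT_arith2 F₁.card ((3 * μ * G) / p) ((2 * lam * G) / μ) (G / lam) μ lam G p hcard hq1 hq2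
      (Nat.div_mul_le_self _ _) (Nat.div_mul_le_self _ _) (Nat.div_mul_le_self _ _) hlam hmu
  · -- the elements of the plane
    set F₂ := F.filter fun x => ∀ i j k, m3 e₁ e₂ x i j k = 0 with hF₂
    have hcard : F₂.card ≤ (2 * ((2 * lam * G) / μ) + 2) * (2 * (G / lam) + 2) := by
      rw [← LAT_card, ← LAT_card, ← Finset.card_product]
      apply Finset.card_le_card_of_injOn
        (fun z => (pl e₁ z i j / (μ : ℤ), z l / (lam : ℤ)))
      · intro z hz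
        have hz' : z ∈ F₂ := hz
        have hzF := (Finset.mem_filter.mp hz').1
        simp only [Finset.coe_product, Set.mem_prod, Finset.mem_coe]
        refine ⟨?_, ?_⟩
        · exact LAT_quot _ _ _ hmu (hplF z hzF)
        · exact LAT_quot _ _ _ hlam (hFb z hzF l)
      · intro z hz z' hz' heq
        have hz1 : z ∈ F₂ := hz
        have hz1' : z' ∈ F₂ := hz'
        have hzF := (Finset.mem_filter.mp hz1).1
        have hzF' := (Finset.mem_filter.mp hz1').1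
        have hzp := (Finset.mem_filter.mp hz1).2
        have hzp' := (Finset.mem_filter.mp hz1').2
        simp only [Prod.mk.injEq] at heq
        obtain ⟨q2, q3⟩ := heq
        have hδΛ : z - z' ∈ Λ := Λ.sub_mem (hF z hzF).1 (hF z' hzF').1
        have hpl : ∀ a b c, m3 e₁ e₂ (z - z') a b c = 0 := by
          intro a b c
          rw [LAT_m3_sub, hzp a b c, hzp' a b c, sub_self]
        have hδz : z - z' = 0 := by
          apply LAT_inj Λ e₁ e₂ i j l hmin1 hl hlam hmin2 hij hmu (z - z') hδΛ hpl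
          · rw [LAT_pl_sub]
            exact LAT_quot_diff _ _ μ hmu q2
          · exact LAT_quot_diff (z l) (z' l) lam hlam q3
        exact sub_eq_zero.mp hδz
    exact LAT_arith1 F₂.card ((2 * lam * G) / μ) (G / lam) μ lam G hcard hq1 hq2
      (Nat.div_mul_le_self _ _) (Nat.div_mul_le_self _ _) hlam

end Pool.Agent.helper68.FY
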